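import Pool.Agent.W555.KS.Defs2
import Pool.Agent.W928.KS.Bal2

/-!
# Generic coloured forms in characteristic two, arbitrary types

Generalizes `Pool.Agent.W928.KS.bal2` (one row of colours, embedded complexes) to arbitrary types
and to complexes with vanishing obstruction.
-/

set_option autoImplicit false

namespace Pool.Agent.Y408.BS

open Finset MvPolynomial Pool.Agent.W555.KS

variable {n m δ : ℕ}

/-- linear form in the variables of colour `i` -/
noncomputable def form {k : Type*} [CommRing k] (κ : Fin n → Fin m) (i : Fin m) (a : Fin n → k) :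
    MvPolynomial (Fin n) k :=
  ∑ v ∈ univ.filter (fun v => κ v = i), C (a v) * X v

section comb

variable {N q : ℕ} (e : Fin N ≃ Fin q × Fin 2)

/-- the squarefree monomial of `h` -/
def sq (h : Fin N → Fin n) : Finset ((Fin q × Fin 2) × Fin n) :=
  univ.image fun i => (e i, h i)

lemma sq_inj {h h' : Fin N → Fin n} (hh : sq e h = sq e h') : h = h' := by
  funext i
  have h1 : (e i, h i) ∈ sq e h' := by
    rw [← hh]
    exact Finset.mem_image.2 ⟨i, Finset.mem_univ _, rfl⟩
  obtain ⟨j, _, hj⟩ := Finset.mem_image.1 h1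
  have h2 := congrArg Prod.fst hj
  have h3 := congrArg Prod.snd hj
  simp only at h2 h3
  rw [e.injective h2] at h3
  exact h3.symm

lemma prod_sq {R : Type*} [CommRing R] (h : Fin N → Fin n)
    (f : (Fin q × Fin 2) × Fin n → R) : ∏ p ∈ sq e h, f p = ∏ i, f (e i, h i) := by
  unfold sq
  rw [Finset.prod_image]
  intro p _ q _ h
  exact e.injective (congrArg Prod.fst h)

/-- the half monomial, from the squarefree monomial -/
def hc {R : Type*} [CommRing R] (x : Fin n → R) (s : Finset ((Fin q × Fin 2) × Fin n)) : R :=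
  ∏ v, x v ^ ((s.filter (fun p => p.2 = v)).card / 2)

lemma hc_sq {R : Type*} [CommRing R] (h : Fin N → Fin n) (x : Fin n → R) :
    hc x (sq e h) = halfMon x h := by
  unfold hc halfMon
  refine Finset.prod_congr rfl (fun v _ => ?_)
  congr 2
  unfold fib
  symm
  apply Finset.card_bij (fun i _ => (e i, h i))
  · intro i hi
    rw [Finset.mem_filter] at hi ⊢
    exact ⟨Finset.mem_image.2 ⟨i, Finset.mem_univ _, rfl⟩, hi.2⟩
  · intro i _ j _ hij
    exact e.injective (congrArg Prod.fst hij)
  · intro p hp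
    rw [Finset.mem_filter] at hp
    obtain ⟨i, _, hi⟩ := Finset.mem_image.1 hp.1
    refine ⟨i, Finset.mem_filter.2 ⟨Finset.mem_univ _, ?_⟩, hi⟩
    rw [← hp.2, ← hi]

end comb

theorem gen2 (h1e : StT1E) (hind : StInd) (K : Finset (Finset (Fin n))) (κ : Fin n → Fin m)
    (col : Fin (δ + 1) → Fin m) (hK : IsCx K) (hV : VK K (2 * δ + 1 + 1))
    (w : Fin (δ + 1) → Fin n) (hw' : ∀ i, κ (w i) = col i) :
    (∏ i, X (w i) : MvPolynomial (Fin n) (FractionRing (MvPolynomial
        ((Fin (δ + 1) × Fin 2) × Fin n) (ZMod 2)))) ∈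
      srI _ K ⊔ Ideal.span (Set.range (fun ij : Fin (δ + 1) × Fin 2 =>
        form κ (col ij.1) (fun v => algebraMap (MvPolynomial ((Fin (δ + 1) × Fin 2) × Fin n)
          (ZMod 2)) (FractionRing (MvPolynomial ((Fin (δ + 1) × Fin 2) × Fin n) (ZMod 2)))
            (X (ij, v))))) := by
  classical
  let ι : Type := (Fin (δ + 1) × Fin 2) × Fin n
  let k : Type := FractionRing (MvPolynomial ι (ZMod 2))
  let al : MvPolynomial ι (ZMod 2) →+* k := algebraMap _ _
  have hchar : CharP k 2 := by
    have h1 : CharP (MvPolynomial ι (ZMod 2)) 2 := inferInstance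
    exact charP_of_injective_algebraMap (IsFractionRing.injective (MvPolynomial ι (ZMod 2)) k) 2
  let th : Fin (δ + 1) × Fin 2 → MvPolynomial (Fin n) k := fun ij =>
    form κ (col ij.1) (fun v => al (X (ij, v)))
  let I : Ideal (MvPolynomial (Fin n) k) := srI k K ⊔ Ideal.span (Set.range th)
  show (∏ i, X (w i) : MvPolynomial (Fin n) k) ∈ I
  rw [← Ideal.Quotient.eq_zero_iff_mem]
  let R : Type := MvPolynomial (Fin n) k ⧸ I
  let x : Fin n → R := fun v => Ideal.Quotient.mk I (X v)
  let e : Fin (2 * δ + 1 + 1) ≃ Fin (δ + 1) × Fin 2 := Fintype.equivOfCardEq (by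
    simp only [Fintype.card_fin, Fintype.card_prod]; ring)
  let b : Fin (δ + 1) × Fin 2 → Fin n → k := fun p v =>
    if κ v = col p.1 then al (X (p, v)) else 0
  have hbsum : ∀ p, ∑ v, b p v • x v = 0 := by
    intro p
    have h1 : ∑ v, b p v • x v = Ideal.Quotient.mk I (th p) := by
      show _ = Ideal.Quotient.mk I
        (∑ v ∈ univ.filter (fun v => κ v = col p.1), C (al (X (p, v))) * X v)
      rw [map_sum, Finset.sum_filter]
      refine Finset.sum_congr rfl (fun v _ => ?_)
      show (if κ v = col p.1 then al (X (p, v)) else 0) • x v = _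
      split_ifs with h
      · rw [map_mul, Algebra.smul_def]
        rfl
      · rw [zero_smul]
    rw [h1, Ideal.Quotient.eq_zero_iff_mem]
    exact Ideal.mem_sup_right (Ideal.subset_span ⟨p, rfl⟩)
  have hx : ∀ σ, σ ∉ K → ∏ v ∈ σ, x v = 0 := by
    intro σ hσ
    have h1 : ∏ v ∈ σ, x v = Ideal.Quotient.mk I (∏ v ∈ σ, X v) := by
      rw [map_prod]
    rw [h1, Ideal.Quotient.eq_zero_iff_mem]
    exact Ideal.mem_sup_left (Ideal.subset_span ⟨σ, hσ, rfl⟩)
  have hmain : ∀ M : R →ₗ[k] k, M (∏ i, x (w i)) = 0 := by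
    intro M
    have h1 := h1e k R n (2 * δ + 1) (δ + 1) 0 K (fun i v => b (e i) v) x M 0 hK
      hV hx (fun i => hbsum _) (hbsum _).symm (by ring) (by simp)
    simp only [pow_zero, one_mul] at h1
    set W : Finset (Fin (2 * δ + 1 + 1) → Fin n) :=
      (univ.filter EvenFun).filter (fun h => ∀ i, κ (h i) = col (e i).1) with hW
    have h3 : ∑ s ∈ W.image (sq e), al (∏ i ∈ s, X i) * (M (hc x s)) ^ 2 = 0 := by
      rw [Finset.sum_image (fun w _ w' _ h => sq_inj e h), ← h1, hW, Finset.sum_filter]
      refine Finset.sum_congr rfl (fun h _ => ?_)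
      split_ifs with hcol
      · rw [hc_sq, prod_sq, map_prod]
        congr 1
        refine Finset.prod_congr rfl (fun i _ => ?_)
        show al (X (e i, h i)) = (if κ (h i) = col (e i).1 then al (X (e i, h i)) else 0)
        rw [if_pos (hcol i)]
      · push Not at hcol
        obtain ⟨i, hi⟩ := hcol
        have h0 : ∏ i, b (e i) (h i) = 0 := by
          refine Finset.prod_eq_zero (Finset.mem_univ i) ?_
          show (if κ (h i) = col (e i).1 then al (X (e i, h i)) else 0) = 0
          rw [if_neg hi]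
        rw [h0, zero_mul]
    have h4 := hind ι (W.image (sq e)) (fun s => M (hc x s)) h3 (sq e (W928.KS.hw e w))
      (Finset.mem_image_of_mem _ (Finset.mem_filter.2 ⟨Finset.mem_filter.2
        ⟨Finset.mem_univ _, W928.KS.even_hw e w⟩, fun i => hw' _⟩))
    rwa [hc_sq, W928.KS.halfMon_hw] at h4
  have h5 : Ideal.Quotient.mk I (∏ i, X (w i)) = ∏ i, x (w i) := by
    rw [map_prod]
  rw [h5]
  exact (Module.forall_dual_apply_eq_zero_iff k (∏ i, x (w i))).1 hmain

end Pool.Agent.Y408.BS
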