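import Pool.Agent.Y408.BS.Tr
import Pool.Agent.W636.KS.Bal

/-!
# Coloured shifting of arbitrary type
-/

set_option autoImplicit false

namespace Pool.Agent.Y408.BS

open Finset MvPolynomial Pool.Agent.W555.KS Pool.Agent.W636.KS

variable {n m δ : ℕ}

/-! ### ranks -/

theorem crank_lt {κ : Fin n → Fin (m + 1)} {x y : Fin n} (hκ : κ x = κ y) (h : x < y) :
    crank κ x < crank κ y := by
  unfold crank
  apply Finset.card_lt_card
  rw [Finset.ssubset_iff_of_subset]
  · refine ⟨x, ?_, ?_⟩
    · rw [mem_filter]; exact ⟨mem_univ _, hκ, h⟩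
    · rw [mem_filter]; intro h1; exact lt_irrefl _ h1.2.2
  · intro w hw
    rw [mem_filter] at hw ⊢
    exact ⟨mem_univ _, hw.2.1.trans hκ, hw.2.2.trans h⟩

theorem crank_inj {κ : Fin n → Fin (m + 1)} {x y : Fin n} (hκ : κ x = κ y)
    (h : crank κ x = crank κ y) : x = y := by
  rcases lt_trichotomy x y with h1 | h1 | h1
  · exact absurd h (crank_lt hκ h1).ne
  · exact h1
  · exact absurd h (crank_lt hκ.symm h1).ne'

/-- a vertex with prescribed colour and rank -/
theorem exists_rank (κ : Fin n → Fin (m + 1)) (i : Fin (m + 1)) (r : ℕ)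
    (h : r < (univ.filter (fun v => κ v = i)).card) : ∃ x, κ x = i ∧ crank κ x = r := by
  classical
  set S := univ.filter (fun v => κ v = i) with hS
  have hmap : ∀ x ∈ S, crank κ x ∈ Finset.range S.card := by
    intro x hx
    rw [Finset.mem_range]
    unfold crank
    apply Finset.card_lt_card
    rw [Finset.ssubset_iff_of_subset]
    · refine ⟨x, hx, ?_⟩
      rw [mem_filter]; intro h1; exact lt_irrefl _ h1.2.2
    · intro w hw
      rw [mem_filter] at hw
      rw [hS, mem_filter] at hx ⊢
      exact ⟨mem_univ _, hw.2.1.trans hx.2⟩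
  have hinj : Set.InjOn (crank κ) (S : Set (Fin n)) := by
    intro x hx y hy hxy
    rw [Finset.mem_coe, hS, mem_filter] at hx hy
    exact crank_inj (hx.2.trans hy.2.symm) hxy
  have hsurj := Finset.surj_on_of_inj_on_of_card_le (s := S) (t := Finset.range S.card)
    (fun x _ => crank κ x) hmap (fun x y hx hy hxy => hinj hx hy hxy)
    (by rw [Finset.card_range]) r (Finset.mem_range.2 h)
  obtain ⟨x, hx, hxr⟩ := hsurj
  rw [hS, mem_filter] at hx
  exact ⟨x, hx.2, hxr.symm⟩

/-- the order is admissible for the type `a`: the vertices which are among the `2 (a i)` smallest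
of their colour class form an initial segment -/
def Adm (κ : Fin n → Fin (m + 1)) (a : Fin (m + 1) → ℕ) : Prop :=
  ∀ u v : Fin n, v < u → crank κ u < 2 * a (κ u) → crank κ v < 2 * a (κ v)

/-- choice of the small vertices -/
theorem exists_p (κ : Fin n → Fin (m + 1)) (a : Fin (m + 1) → ℕ) (col : Fin (δ + 1) → Fin (m + 1))
    (ha : ∀ i, (univ.filter (fun j => col j = i)).card = a i)
    (hbig : ∀ j, 2 * a (col j) ≤ (univ.filter (fun v => κ v = col j)).card) :
    ∃ p : Fin (δ + 1) × Fin 2 → Fin n, Function.Injective p ∧ ∀ x, κ (p x) = col x.1 ∧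
      crank κ (p x) < 2 * a (col x.1) := by
  classical
  have hcard : ∀ i, Fintype.card {x : Fin (δ + 1) × Fin 2 // col x.1 = i} = 2 * a i := by
    intro i
    rw [Fintype.card_subtype]
    have h1 : (univ.filter (fun x : Fin (δ + 1) × Fin 2 => col x.1 = i)) =
        (univ.filter (fun j => col j = i)) ×ˢ (univ : Finset (Fin 2)) := by
      ext x
      simp
    rw [h1, Finset.card_product, ha i, Finset.card_univ, Fintype.card_fin]
    ring
  let eq : ∀ i, {x : Fin (δ + 1) × Fin 2 // col x.1 = i} ≃ Fin (2 * a i) := fun i =>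
    Fintype.equivFinOfCardEq (hcard i)
  have hex : ∀ x : Fin (δ + 1) × Fin 2, ∃ y, κ y = col x.1 ∧
      crank κ y = (eq (col x.1) ⟨x, rfl⟩ : ℕ) := by
    intro x
    exact exists_rank κ _ _ (lt_of_lt_of_le (eq (col x.1) ⟨x, rfl⟩).2 (hbig x.1))
  choose p hp1 hp2 using hex
  refine ⟨p, ?_, fun x => ⟨hp1 x, by rw [hp2]; exact (eq (col x.1) ⟨x, rfl⟩).2⟩⟩
  intro x y hxy
  have hc : col y.1 = col x.1 := by rw [← hp1, ← hp1, hxy]
  have h1 : ∀ i (h : col y.1 = i), crank κ (p y) = (eq i ⟨y, h⟩ : ℕ) := by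
    rintro _ rfl
    exact hp2 y
  have h2 := hp2 x
  rw [hxy, h1 _ hc] at h2
  have h3 := (eq (col x.1)).injective (Fin.ext h2)
  exact (congrArg Subtype.val h3).symm

/-- products of the forms with all vertices large are combinations of products with some vertex
small -/
theorem core (h1e : StT1E) (hind : StInd) (k : Type) [Field k] (hk : CharZero k ∨ CharP k 2)
    (K : Finset (Finset (Fin n))) (κ : Fin n → Fin (m + 1)) (a : Fin (m + 1) → ℕ)
    (col : Fin (δ + 1) → Fin (m + 1)) (hK : IsCx K) (hV : VK K (2 * δ + 1 + 1))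
    (ha : ∀ i, (univ.filter (fun j => col j = i)).card = a i) :
    ∃ P : MvPolynomial (Fin n × Fin n) k, P ≠ 0 ∧ ∀ Θ : Fin n × Fin n → k, eval Θ P ≠ 0 →
      ∀ t : Fin (δ + 1) → Fin n, (∀ j, κ (t j) = col j) →
      (∀ j, 2 * a (col j) ≤ crank κ (t j)) →
      Ideal.Quotient.mk (srI k K) (∏ j, thetaB κ Θ (t j)) ∈
        Submodule.span k {y | ∃ t' : Fin (δ + 1) → Fin n, (∀ j, κ (t' j) = col j) ∧
          (∃ j, crank κ (t' j) < 2 * a (col j)) ∧
          y = Ideal.Quotient.mk (srI k K) (∏ j, thetaB κ Θ (t' j))} := by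
  classical
  by_cases hcl : ∀ j, 2 * a (col j) ≤ (univ.filter (fun v => κ v = col j)).card
  · obtain ⟨p', hp'inj, hpκ⟩ := exists_p κ a col ha hcl
    obtain ⟨F, hF0, hF⟩ := gen0 h1e hind K κ col hK hV
    let ρ : (Fin (δ + 1) × Fin 2) × Fin n → Fin n × Fin n := fun q => (p' q.1, q.2)
    have hρ : Function.Injective ρ := by
      rintro ⟨a, v⟩ ⟨b, w⟩ h
      have h1 := (Prod.ext_iff.mp h).1
      have h2 := (Prod.ext_iff.mp h).2
      simp only [ρ] at h1 h2
      rw [hp'inj h1, h2]
    let P1 : MvPolynomial (Fin n × Fin n) k := rename ρ (MvPolynomial.map (Int.castRingHom k) F)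
    have hP1 : P1 ≠ 0 := by
      intro h
      have h1 : MvPolynomial.map (Int.castRingHom k) F = 0 :=
        (rename_injective ρ hρ) (by rw [map_zero]; exact h)
      exact map_ne hk hF0 h1
    let P2 : MvPolynomial (Fin n × Fin n) k :=
      (blk κ (fun p : Fin n × Fin n => (X p : MvPolynomial (Fin n × Fin n) k))).det
    have hP2 : P2 ≠ 0 := blk_generic_ne κ k
    refine ⟨P1 * P2, mul_ne_zero hP1 hP2, ?_⟩
    intro Θ hΘ t ht1 ht2
    rw [map_mul] at hΘ
    have hΘ1 : eval Θ P1 ≠ 0 := left_ne_zero_of_mul hΘ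
    have hΘ2 : (blk κ Θ).det ≠ 0 := by
      have := right_ne_zero_of_mul hΘ
      rwa [blk_eval] at this
    let c : (Fin (δ + 1) × Fin 2) × Fin n → k := fun q => Θ (p' q.1, q.2)
    have hc : aeval c F ≠ 0 := by
      have : eval Θ P1 = aeval c F := by
        simp only [P1]
        rw [eval_rename, aeval_def, eval_map]
        rfl
      rwa [this] at hΘ1
    have hFw := hF k c hc
    set T := Submodule.span k {y | ∃ t' : Fin (δ + 1) → Fin n, (∀ j, κ (t' j) = col j) ∧
          (∃ j, crank κ (t' j) < 2 * a (col j)) ∧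
          y = Ideal.Quotient.mk (srI k K) (∏ j, thetaB κ Θ (t' j))} with hT
    -- the preimage of `T`
    let T' : Submodule k (MvPolynomial (Fin n) k) :=
      T.comap (Ideal.Quotient.mkₐ k (srI k K)).toLinearMap
    have hmem : ∀ x, x ∈ T' ↔ Ideal.Quotient.mk (srI k K) x ∈ T := fun x => Iff.rfl
    rw [← hmem]
    -- step 1: products of thetas with some small vertex
    have step1 : ∀ (ij : Fin (δ + 1) × Fin 2) (v : Fin (δ + 1) → Fin n), (∀ i, κ (v i) = col i) →
        (∏ i ∈ univ.erase ij.1, thetaB κ Θ (v i)) * thetaB κ Θ (p' ij) ∈ T' := by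
      intro ij v hv
      let v' := Function.update v ij.1 (p' ij)
      have hv' : ∀ i, κ (v' i) = col i := by
        intro i
        by_cases hi : i = ij.1
        · subst hi
          simp only [v', Function.update_self]
          exact (hpκ _).1
        · simp only [v', Function.update_of_ne hi]; exact hv i
      have heq : (∏ i ∈ univ.erase ij.1, thetaB κ Θ (v i)) * thetaB κ Θ (p' ij)
          = ∏ j, thetaB κ Θ (v' j) := by
        rw [← Finset.prod_erase_mul univ _ (mem_univ ij.1)]
        congr 1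
        · refine Finset.prod_congr rfl (fun i hi => ?_)
          simp only [v', Function.update_of_ne (Finset.ne_of_mem_erase hi)]
        · simp only [v', Function.update_self]
      rw [heq, hmem]
      refine Submodule.subset_span ⟨v', hv', ⟨ij.1, ?_⟩, rfl⟩
      simp only [v', Function.update_self]
      exact (hpκ _).2
    -- step 2: products of variables times theta
    have step2 : ∀ (ij : Fin (δ + 1) × Fin 2) (u : Fin (δ + 1) → Fin n), (∀ i, κ (u i) = col i) →
        (∏ i ∈ univ.erase ij.1, X (u i)) * thetaB κ Θ (p' ij) ∈ T' := by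
      intro ij u hu
      have h1 := prod_mem_span' (k := k) (univ.erase ij.1)
        (fun i => (X (u i) : MvPolynomial (Fin n) k))
        (fun i => {y | ∃ v, κ v = col i ∧ y = thetaB κ Θ v})
        (fun i _ => by
          have := X_mem κ Θ hΘ2 (u i)
          rwa [hu i] at this)
      let T'' : Submodule k (MvPolynomial (Fin n) k) :=
        T'.comap (LinearMap.mulRight k (thetaB κ Θ (p' ij)))
      have hmem'' : ∀ x, x ∈ T'' ↔ x * thetaB κ Θ (p' ij) ∈ T' := fun x => Iff.rfl
      rw [← hmem'']
      refine (Submodule.span_le.mpr ?_) h1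
      rintro y ⟨g, hg, rfl⟩
      have hgv : ∀ i, ∃ v, κ v = col i ∧ (i ∈ univ.erase ij.1 → g i = thetaB κ Θ v) := by
        intro i
        by_cases hi : i ∈ univ.erase ij.1
        · obtain ⟨v, hv1, hv2⟩ := hg i hi
          exact ⟨v, hv1, fun _ => hv2⟩
        · exact ⟨u i, hu i, fun h => absurd h hi⟩
      choose v hv1 hv2 using hgv
      have : ∏ i ∈ univ.erase ij.1, g i = ∏ i ∈ univ.erase ij.1, thetaB κ Θ (v i) :=
        Finset.prod_congr rfl (fun i hi => hv2 i hi)
      rw [SetLike.mem_coe, hmem'', this]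
      exact step1 ij v hv1
    -- step 3: coloured monomials
    have step3 : ∀ w : Fin (δ + 1) → Fin n, (∀ i, κ (w i) = col i) →
        (∏ i, X (w i) : MvPolynomial (Fin n) k) ∈ T' := by
      intro w hw
      obtain ⟨q, hq1, hq2⟩ := hFw w hw
      have hth : ∀ ij : Fin (δ + 1) × Fin 2,
          form κ (col ij.1) (fun v => c (ij, v)) = thetaB κ Θ (p' ij) := by
        intro ij
        unfold thetaB form
        have : κ (p' ij) = col ij.1 := (hpκ _).1
        rw [this]
      have hsum : (∑ ij, q ij * form κ (col ij.1) (fun v => c (ij, v)) :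
          MvPolynomial (Fin n) k) ∈ T' := by
        refine Submodule.sum_mem _ (fun ij _ => ?_)
        rw [hth]
        let T'' : Submodule k (MvPolynomial (Fin n) k) :=
          T'.comap (LinearMap.mulRight k (thetaB κ Θ (p' ij)))
        have hmem'' : ∀ x, x ∈ T'' ↔ x * thetaB κ Θ (p' ij) ∈ T' := fun x => Iff.rfl
        rw [← hmem'']
        refine (Submodule.span_le.mpr ?_) (hq1 ij)
        rintro y ⟨u, hu, rfl⟩
        rw [SetLike.mem_coe, hmem'']
        exact step2 ij u hu
      have hmk : Ideal.Quotient.mk (srI k K) (∏ i, X (w i)) = Ideal.Quotient.mk (srI k K)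
          (∑ ij, q ij * form κ (col ij.1) (fun v => c (ij, v))) := by
        rw [Ideal.Quotient.eq]
        exact hq2
      rw [hmem, hmk, ← hmem]
      exact hsum
    -- step 4
    have h4 := prod_mem_span' (k := k) univ
      (fun i => thetaB κ Θ (t i))
      (fun i => {y | ∃ w, κ w = col i ∧ y = (X w : MvPolynomial (Fin n) k)})
      (fun i _ => by
        have := theta_mem κ Θ (t i)
        rwa [ht1 i] at this)
    refine (Submodule.span_le.mpr ?_) h4
    rintro y ⟨g, hg, rfl⟩
    choose w hw1 hw2 using fun i => hg i (mem_univ i)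
    have : ∏ i, g i = ∏ i, X (w i) := Finset.prod_congr rfl (fun i _ => hw2 i)
    rw [SetLike.mem_coe, this]
    exact step3 w hw1
  · refine ⟨1, one_ne_zero, ?_⟩
    intro Θ _ t ht1 ht2
    exfalso
    apply hcl
    intro j
    refine (ht2 j).trans ?_
    unfold crank
    refine Finset.card_le_card ?_
    intro w hw
    rw [Finset.mem_filter] at hw ⊢
    exact ⟨mem_univ _, hw.2.1.trans (ht1 j)⟩

end Pool.Agent.Y408.BS
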