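import Pool.Agent.Y408.BS.Sh

/-!
# Coloured shifting of arbitrary type: definitions and the main step
-/

set_option autoImplicit false

namespace Pool.Agent.Y408.BS

open Finset MvPolynomial Pool.Agent.W555.KS Pool.Agent.W636.KS

variable {n m δ : ℕ}

open Classical in
/-- the vertex replacing `v` in the monomial of `F` -/
noncomputable def up (κ : Fin n → Fin (m + 1)) (F : Finset (Fin n)) (v : Fin n) : Fin n :=
  if h : ∃ x, κ x = κ v ∧
    crank κ x = crank κ v + (F.filter (fun w => κ w = κ v ∧ v < w)).card then h.choose else v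

/-- exponent of `F` -/
noncomputable def expo (κ : Fin n → Fin (m + 1)) (F : Finset (Fin n)) : Fin n →₀ ℕ :=
  ∑ v ∈ F, Finsupp.single (up κ F v) 1

/-- product of powers of the forms -/
noncomputable def thetaPow (κ : Fin n → Fin (m + 1)) {k : Type*} [Field k]
    (Θ : Fin n × Fin n → k) (u : Fin n →₀ ℕ) : MvPolynomial (Fin n) k :=
  ∏ v, thetaB κ Θ v ^ u v

/-- multidegree -/
def mdeg (κ : Fin n → Fin (m + 1)) (u : Fin n →₀ ℕ) (i : Fin (m + 1)) : ℕ :=
  ∑ v ∈ univ.filter (fun v => κ v = i), u v

/-- lexicographic order of monomials -/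
def MLexLT (u' u : Fin n →₀ ℕ) : Prop := ∃ x, u x < u' x ∧ ∀ y, y < x → u' y = u y

/-- coloured shifting of type `a` -/
def cshift (κ : Fin n → Fin (m + 1)) (a : Fin (m + 1) → ℕ) (k : Type*) [Field k]
    (Θ : Fin n × Fin n → k) (K : Finset (Finset (Fin n))) : Set (Finset (Fin n)) :=
  {F | (∀ i, (F.filter (fun v => κ v = i)).card ≤ a i) ∧
    (Ideal.Quotient.mk (srI k K) (thetaPow κ Θ (expo κ F))) ∉
      Submodule.span k {y | ∃ u : Fin n →₀ ℕ, (∀ i, mdeg κ u i = mdeg κ (expo κ F) i) ∧
        MLexLT u (expo κ F) ∧ y = Ideal.Quotient.mk (srI k K) (thetaPow κ Θ u)}}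

theorem up_spec (κ : Fin n → Fin (m + 1)) (F : Finset (Fin n)) (v : Fin n) :
    κ (up κ F v) = κ v ∧
    crank κ (up κ F v) = crank κ v + (F.filter (fun w => κ w = κ v ∧ v < w)).card := by
  classical
  have hex : ∃ x, κ x = κ v ∧
      crank κ x = crank κ v + (F.filter (fun w => κ w = κ v ∧ v < w)).card := by
    apply exists_rank
    set A := univ.filter (fun w => κ w = κ v ∧ w < v) with hA
    set B := F.filter (fun w => κ w = κ v ∧ v < w) with hB
    have h1 : crank κ v = A.card := rfl
    rw [h1]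
    have hdis : Disjoint A B := by
      rw [Finset.disjoint_left]
      intro x hx hx'
      rw [hA, mem_filter] at hx
      rw [hB, mem_filter] at hx'
      exact lt_asymm hx.2.2 hx'.2.2
    rw [← Finset.card_union_of_disjoint hdis]
    apply Finset.card_lt_card
    rw [Finset.ssubset_iff_of_subset]
    · refine ⟨v, ?_, ?_⟩
      · rw [mem_filter]; exact ⟨mem_univ _, rfl⟩
      · rw [mem_union, hA, hB, mem_filter, mem_filter]
        rintro (h | h)
        · exact lt_irrefl _ h.2.2
        · exact lt_irrefl _ h.2.2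
    · intro x hx
      rw [mem_union, hA, hB, mem_filter, mem_filter] at hx
      rw [mem_filter]
      refine ⟨mem_univ _, ?_⟩
      rcases hx with h | h
      · exact h.2.1
      · exact h.2.1
  unfold up
  rw [dif_pos hex]
  exact hex.choose_spec

theorem mon_apply (t : Fin (δ + 1) → Fin n) (v : Fin n) :
    mon t v = (univ.filter (fun j => t j = v)).card := by
  unfold mon
  rw [Finsupp.finsetSum_apply, Finset.card_filter]
  refine Finset.sum_congr rfl (fun j _ => ?_)
  rw [Finsupp.single_apply]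

theorem thetaPow_mon (κ : Fin n → Fin (m + 1)) {k : Type*} [Field k]
    (Θ : Fin n × Fin n → k) (t : Fin (δ + 1) → Fin n) :
    thetaPow κ Θ (mon t) = ∏ j, thetaB κ Θ (t j) := by
  classical
  unfold thetaPow
  rw [← Finset.prod_fiberwise (univ : Finset (Fin (δ + 1))) t (fun j => thetaB κ Θ (t j))]
  refine Finset.prod_congr rfl (fun v _ => ?_)
  rw [mon_apply]
  rw [Finset.prod_congr rfl (g := fun _ => thetaB κ Θ v) (fun c hc => by
    rw [(Finset.mem_filter.1 hc).2])]
  rw [Finset.prod_const]

theorem mdeg_mon (κ : Fin n → Fin (m + 1)) (t : Fin (δ + 1) → Fin n) (i : Fin (m + 1)) :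
    mdeg κ (mon t) i = (univ.filter (fun j => κ (t j) = i)).card := by
  classical
  unfold mdeg
  have h1 : ∀ v ∈ univ.filter (fun v => κ v = i), mon t v =
      ((univ.filter (fun j => κ (t j) = i)).filter (fun j => t j = v)).card := by
    intro v hv
    rw [mem_filter] at hv
    rw [mon_apply, Finset.filter_filter]
    congr 1
    ext j
    rw [mem_filter, mem_filter]
    constructor
    · rintro ⟨h, h'⟩; exact ⟨h, by rw [h', hv.2], h'⟩
    · rintro ⟨h, _, h'⟩; exact ⟨h, h'⟩
  rw [Finset.sum_congr rfl h1]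
  symm
  apply Finset.card_eq_sum_card_fiberwise
  intro j hj
  rw [Finset.mem_coe, mem_filter] at hj ⊢
  exact ⟨mem_univ _, hj.2⟩

theorem mlex_of {κ : Fin n → Fin (m + 1)} {a : Fin (m + 1) → ℕ} (hadm : Adm κ a)
    {t t' : Fin (δ + 1) → Fin n} (ht : ∀ j, 2 * a (κ (t j)) ≤ crank κ (t j))
    (ht' : ∃ j, crank κ (t' j) < 2 * a (κ (t' j))) : MLexLT (mon t') (mon t) := by
  classical
  obtain ⟨j0, hj0⟩ := ht'
  have hne : (univ.image t').Nonempty := ⟨t' j0, Finset.mem_image_of_mem _ (mem_univ _)⟩
  set x := (univ.image t').min' hne with hx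
  have hxm : x ∈ univ.image t' := Finset.min'_mem _ _
  have hle : x ≤ t' j0 := Finset.min'_le _ _ (Finset.mem_image_of_mem _ (mem_univ _))
  have hxs : crank κ x < 2 * a (κ x) := by
    rcases lt_or_eq_of_le hle with h | h
    · exact hadm _ _ h hj0
    · rw [h]; exact hj0
  have hz : ∀ y, crank κ y < 2 * a (κ y) → mon t y = 0 := by
    intro y hy
    rw [mon_apply, Finset.card_eq_zero, Finset.filter_eq_empty_iff]
    intro j _ hj
    have := ht j
    rw [hj] at this
    omega
  refine ⟨x, ?_, ?_⟩
  · rw [hz x hxs, mon_apply]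
    obtain ⟨j, _, hj⟩ := Finset.mem_image.1 hxm
    exact Finset.card_pos.2 ⟨j, mem_filter.2 ⟨mem_univ _, hj⟩⟩
  · intro y hy
    rw [hz y (hadm _ _ hy hxs), mon_apply, Finset.card_eq_zero, Finset.filter_eq_empty_iff]
    intro j _ hj
    have h1 : x ≤ y := by
      rw [← hj]
      exact Finset.min'_le _ _ (Finset.mem_image_of_mem _ (mem_univ _))
    exact absurd h1 (not_le.2 hy)

/-- sets of full type whose vertices are large are not in the shifted complex -/
theorem not_mem_cshift (h1e : StT1E) (hind : StInd) (k : Type) [Field k]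
    (hk : CharZero k ∨ CharP k 2)
    (K : Finset (Finset (Fin n))) (κ : Fin n → Fin (m + 1)) (a : Fin (m + 1) → ℕ)
    (hK : IsCx K) (hsum : ∑ i, a i = δ + 1) (hV : VK K (2 * δ + 1 + 1)) (hadm : Adm κ a) :
    ∃ P : MvPolynomial (Fin n × Fin n) k, P ≠ 0 ∧ ∀ Θ : Fin n × Fin n → k, eval Θ P ≠ 0 →
      ∀ F : Finset (Fin n), (∀ i, (F.filter (fun v => κ v = i)).card = a i) →
        (∀ v ∈ F, a (κ v) + (F.filter (fun w => κ w = κ v ∧ w ≤ v)).card ≤ crank κ v) →
        F ∉ cshift κ a k Θ K := by
  classical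
  have hcore := fun (col : {col : Fin (δ + 1) → Fin (m + 1) //
    ∀ i, (univ.filter (fun j => col j = i)).card = a i}) =>
    core h1e hind k hk K κ a col.1 hK hV col.2
  choose P hP0 hP using hcore
  refine ⟨∏ col, P col, Finset.prod_ne_zero_iff.2 (fun col _ => hP0 col), ?_⟩
  intro Θ hΘ F hF hr hmem
  rw [map_prod] at hΘ
  have hFc : F.card = δ + 1 := by
    rw [← hsum, Finset.card_eq_sum_card_fiberwise (f := κ) (t := univ) (fun _ _ => mem_univ _)]
    exact Finset.sum_congr rfl (fun i _ => hF i)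
  let eF : Fin (δ + 1) ≃ {v // v ∈ F} := (Fintype.equivFinOfCardEq (by
    rw [Fintype.card_coe, hFc])).symm
  let t : Fin (δ + 1) → Fin n := fun j => up κ F (eF j)
  let col : Fin (δ + 1) → Fin (m + 1) := fun j => κ (eF j)
  have hcol : ∀ i, (univ.filter (fun j => col j = i)).card = a i := by
    intro i
    rw [← hF i]
    apply Finset.card_bij (fun j _ => (eF j : Fin n))
    · intro j hj
      rw [mem_filter] at hj ⊢
      exact ⟨(eF j).2, hj.2⟩
    · intro j _ j' _ h
      exact eF.injective (Subtype.ext h)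
    · intro v hv
      rw [mem_filter] at hv
      refine ⟨eF.symm ⟨v, hv.1⟩, ?_, ?_⟩
      · rw [mem_filter]
        refine ⟨mem_univ _, ?_⟩
        show κ (eF (eF.symm ⟨v, hv.1⟩)) = i
        rw [Equiv.apply_symm_apply]
        exact hv.2
      · rw [Equiv.apply_symm_apply]
  have ht1 : ∀ j, κ (t j) = col j := fun j => (up_spec κ F (eF j)).1
  have ht2 : ∀ j, 2 * a (col j) ≤ crank κ (t j) := by
    intro j
    have h1 := (up_spec κ F (eF j)).2
    have h2 := hr _ (eF j).2
    have h3 : (F.filter (fun w => κ w = κ (eF j : Fin n) ∧ w ≤ (eF j : Fin n))).card +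
        (F.filter (fun w => κ w = κ (eF j : Fin n) ∧ (eF j : Fin n) < w)).card =
        a (κ (eF j : Fin n)) := by
      rw [← hF, ← Finset.card_union_of_disjoint]
      · congr 1
        ext w
        rw [mem_union, mem_filter, mem_filter, mem_filter]
        constructor
        · rintro (h | h)
          · exact ⟨h.1, h.2.1⟩
          · exact ⟨h.1, h.2.1⟩
        · rintro ⟨h, h'⟩
          rcases le_or_gt w (eF j : Fin n) with h4 | h4
          · exact Or.inl ⟨h, h', h4⟩
          · exact Or.inr ⟨h, h', h4⟩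
      · rw [Finset.disjoint_left]
        intro w hw hw'
        rw [mem_filter] at hw hw'
        exact absurd hw.2.2 (not_le.2 hw'.2.2)
    show 2 * a (κ (eF j)) ≤ crank κ (up κ F (eF j))
    rw [h1]
    omega
  have hexp : expo κ F = mon t := by
    unfold expo mon
    rw [← Finset.sum_coe_sort F (fun v => (Finsupp.single (up κ F v) 1 : Fin n →₀ ℕ))]
    exact (Equiv.sum_comp eF (fun v : {v // v ∈ F} =>
      (Finsupp.single (up κ F v) 1 : Fin n →₀ ℕ))).symm
  have hmain := hP ⟨col, hcol⟩ Θ (Finset.prod_ne_zero_iff.1 hΘ ⟨col, hcol⟩ (mem_univ _)) t ht1 ht2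
  apply hmem.2
  rw [hexp, thetaPow_mon]
  refine Submodule.span_mono ?_ hmain
  rintro y ⟨t', ht', ⟨j, hj⟩, rfl⟩
  refine ⟨mon t', ?_, ?_, ?_⟩
  · intro i
    rw [mdeg_mon, mdeg_mon]
    congr 1
    ext j
    rw [mem_filter, mem_filter, ht', ht1]
  · apply mlex_of hadm
    · intro j; rw [ht1]; exact ht2 j
    · exact ⟨j, by rw [ht']; exact hj⟩
  · rw [thetaPow_mon]

/-! ### the top elements -/

theorem card_top (S : Finset (Fin n)) (c : ℕ) :
    (S.filter (fun v => c ≤ (S.filter (fun w => w < v)).card)).card = S.card - c := by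
  classical
  have hpos : ∀ x ∈ S, ∀ y ∈ S, x < y →
      (S.filter (fun w => w < x)).card < (S.filter (fun w => w < y)).card := by
    intro x hx y hy h
    apply Finset.card_lt_card
    rw [Finset.ssubset_iff_of_subset]
    · exact ⟨x, mem_filter.2 ⟨hx, h⟩, fun h1 => lt_irrefl _ (mem_filter.1 h1).2⟩
    · intro w hw
      rw [mem_filter] at hw ⊢
      exact ⟨hw.1, hw.2.trans h⟩
  have hinj : Set.InjOn (fun v => (S.filter (fun w => w < v)).card) (S : Set (Fin n)) := by
    intro x hx y hy hxy
    simp only at hxy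
    rcases lt_trichotomy x y with h | h | h
    · exact absurd hxy (hpos x hx y hy h).ne
    · exact h
    · exact absurd hxy (hpos y hy x hx h).ne'
  have himg : S.image (fun v => (S.filter (fun w => w < v)).card) = Finset.range S.card := by
    apply Finset.eq_of_subset_of_card_le
    · intro r hr
      obtain ⟨x, hx, rfl⟩ := Finset.mem_image.1 hr
      rw [Finset.mem_range]
      apply Finset.card_lt_card
      rw [Finset.ssubset_iff_of_subset (Finset.filter_subset _ _)]
      exact ⟨x, hx, fun h1 => lt_irrefl _ (mem_filter.1 h1).2⟩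
    · rw [Finset.card_range, Finset.card_image_of_injOn hinj]
  have h1 : ((Finset.range S.card).filter (fun r => c ≤ r)).card = S.card - c := by
    have : (Finset.range S.card).filter (fun r => c ≤ r) = Finset.Ico c S.card := by
      ext r; rw [mem_filter, Finset.mem_range, Finset.mem_Ico]; tauto
    rw [this, Nat.card_Ico]
  rw [← h1, ← himg, Finset.filter_image, Finset.card_image_of_injOn]
  intro x hx y hy hxy
  rw [Finset.mem_coe, mem_filter] at hx hy
  exact hinj hx.1 hy.1 hxy

/-- colourwise copy of the join of the skeleta -/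
def ContainsSk (κ : Fin n → Fin (m + 1)) (a : Fin (m + 1) → ℕ) (Q : Set (Finset (Fin n))) : Prop :=
  ∃ W : Finset (Fin n), (∀ i, (W.filter (fun v => κ v = i)).card = 2 * a i + 1) ∧
    ∀ F ⊆ W, (∀ i, (F.filter (fun v => κ v = i)).card = a i) → F ∈ Q

theorem containsSk_imp {κ : Fin n → Fin (m + 1)} {a : Fin (m + 1) → ℕ}
    {Q : Set (Finset (Fin n))} (h : ContainsSk κ a Q) :
    ∃ F ∈ Q, (∀ i, (F.filter (fun v => κ v = i)).card = a i) ∧
      (∀ v ∈ F, a (κ v) + (F.filter (fun w => κ w = κ v ∧ w ≤ v)).card ≤ crank κ v) := by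
  classical
  obtain ⟨W, hW, hQ⟩ := h
  let pos : Fin n → ℕ := fun v => (W.filter (fun w => κ w = κ v ∧ w < v)).card
  let F : Finset (Fin n) := W.filter (fun v => a (κ v) + 1 ≤ pos v)
  have hFi : ∀ i, (F.filter (fun v => κ v = i)).card = a i := by
    intro i
    have h1 : F.filter (fun v => κ v = i) = (W.filter (fun v => κ v = i)).filter
        (fun v => a i + 1 ≤ ((W.filter (fun v => κ v = i)).filter (fun w => w < v)).card) := by
      ext v
      simp only [F, pos, mem_filter]
      constructor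
      · rintro ⟨⟨h1, h2⟩, h3⟩
        subst h3
        refine ⟨⟨h1, rfl⟩, ?_⟩
        rw [Finset.filter_filter]
        exact h2
      · rintro ⟨⟨h1, h3⟩, h2⟩
        subst h3
        refine ⟨⟨h1, ?_⟩, rfl⟩
        rw [Finset.filter_filter] at h2
        exact h2
    rw [h1, card_top, hW]
    omega
  have hFW : F ⊆ W := Finset.filter_subset _ _
  refine ⟨F, hQ F hFW hFi, hFi, ?_⟩
  intro v hv
  have hvW : v ∈ W := hFW hv
  have hvp : a (κ v) + 1 ≤ pos v := (mem_filter.1 hv).2
  -- the elements of `W` of this colour which are not in `F`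
  set N := (W.filter (fun w => κ w = κ v)).filter (fun w => w ∉ F) with hN
  have hNc : N.card = a (κ v) + 1 := by
    have h1 : (W.filter (fun w => κ w = κ v)).card =
        ((W.filter (fun w => κ w = κ v)).filter (fun w => w ∈ F)).card + N.card := by
      rw [hN, ← Finset.card_filter_add_card_filter_not (s := W.filter (fun w => κ w = κ v))
        (fun w => w ∈ F)]
    have h2 : (W.filter (fun w => κ w = κ v)).filter (fun w => w ∈ F) =
        F.filter (fun w => κ w = κ v) := by
      ext w
      simp only [mem_filter]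
      constructor
      · rintro ⟨⟨_, h2⟩, h3⟩; exact ⟨h3, h2⟩
      · rintro ⟨h3, h2⟩; exact ⟨⟨hFW h3, h2⟩, h3⟩
    rw [h2, hFi, hW] at h1
    omega
  have hNlt : ∀ w ∈ N, w < v := by
    intro w hw
    rw [hN, mem_filter, mem_filter] at hw
    by_contra hle
    rw [not_lt] at hle
    apply hw.2
    refine mem_filter.2 ⟨hw.1.1, ?_⟩
    rw [hw.1.2]
    refine hvp.trans ?_
    apply Finset.card_le_card
    intro x hx
    rw [mem_filter] at hx ⊢
    exact ⟨hx.1, hx.2.1.trans hw.1.2.symm, lt_of_lt_of_le hx.2.2 hle⟩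
  set L := F.filter (fun w => κ w = κ v ∧ w < v) with hL
  have hle : (F.filter (fun w => κ w = κ v ∧ w ≤ v)).card = L.card + 1 := by
    have h1 : F.filter (fun w => κ w = κ v ∧ w ≤ v) = insert v L := by
      ext w
      constructor
      · intro hw
        obtain ⟨h1, h2, h3⟩ := Finset.mem_filter.1 hw
        rcases eq_or_lt_of_le h3 with h | h
        · exact Finset.mem_insert.2 (Or.inl h)
        · exact Finset.mem_insert.2 (Or.inr (Finset.mem_filter.2 ⟨h1, h2, h⟩))
      · intro hw
        rcases Finset.mem_insert.1 hw with h | h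
        · rw [h]; exact Finset.mem_filter.2 ⟨hv, rfl, le_refl _⟩
        · obtain ⟨h1, h2, h3⟩ := Finset.mem_filter.1 h
          exact Finset.mem_filter.2 ⟨h1, h2, h3.le⟩
    rw [h1, Finset.card_insert_of_notMem]
    intro h
    exact lt_irrefl _ (mem_filter.1 h).2.2
  have hdis : Disjoint N L := by
    rw [Finset.disjoint_left]
    intro w hw hw'
    exact (mem_filter.1 hw).2 (mem_filter.1 hw').1
  have hsub : N ∪ L ⊆ univ.filter (fun w => κ w = κ v ∧ w < v) := by
    intro w hw
    rw [mem_filter]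
    rcases mem_union.1 hw with h | h
    · exact ⟨mem_univ _, (mem_filter.1 (mem_filter.1 h).1).2, hNlt w h⟩
    · exact ⟨mem_univ _, (mem_filter.1 h).2⟩
  have := Finset.card_le_card hsub
  rw [Finset.card_union_of_disjoint hdis, hNc] at this
  rw [hle]
  unfold crank
  omega

end Pool.Agent.Y408.BS
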